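import Mathlib

/-!
# Energy decrement for mutual information (project SAG, pieces D1 and D2)

`p : Ω → I → ℝ` is a measurable family of probability vectors, `bar p ν` its mean for the law `ν` and
`J p ν` the mutual information of a point `y` of law `ν` and an index of law `p y`.
-/

set_option autoImplicit false

namespace Pool.Agent.Helper97.SAG

open MeasureTheory Real ProbabilityTheory

/-! ### One index -/

/-- `a log (a / q) - a + q ≥ (√a - √q) ^ 2` -/
theorem kl_term (a q : ℝ) (ha : 0 ≤ a) (hq : 0 < q) :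
    (√a - √q) ^ 2 ≤ -negMulLog a - a * log q - a + q := by
  rcases eq_or_lt_of_le ha with h | h
  · subst h
    simp [Real.sq_sqrt hq.le]
  have hs : 0 < √a := Real.sqrt_pos.mpr h
  have ht : 0 < √q := Real.sqrt_pos.mpr hq
  have e1 : log a = 2 * log (√a) := by
    rw [Real.log_sqrt ha]; ring
  have e2 : log q = 2 * log (√q) := by
    rw [Real.log_sqrt hq.le]; ring
  have e3 : log (√q / √a) ≤ √q / √a - 1 := Real.log_le_sub_one_of_pos (by positivity)
  rw [Real.log_div ht.ne' hs.ne'] at e3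
  have e4 : a * (√q / √a) = √a * √q := by
    have : a = √a * √a := (Real.mul_self_sqrt ha).symm
    calc a * (√q / √a) = (√a * √a) * (√q / √a) := by rw [← this]
      _ = √a * √q := by field_simp
  have e5 : a * (log (√q) - log (√a)) ≤ √a * √q - a := by
    have := mul_le_mul_of_nonneg_left e3 ha
    linarith [this, e4]
  have e6 : (√a - √q) ^ 2 = a - 2 * (√a * √q) + q := by
    have h1 := Real.sq_sqrt ha
    have h2 := Real.sq_sqrt hq.le
    nlinarith
  rw [e6]
  unfold negMulLog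
  rw [e1, e2]
  nlinarith

/-- the entropy gain of a mixture of two numbers -/
theorem br_term (a b α : ℝ) (ha : 0 ≤ a) (hb : 0 ≤ b) (h0 : 0 ≤ α) (h1 : α ≤ 1) :
    α * (√a - √(α * a + (1 - α) * b)) ^ 2 ≤
      negMulLog (α * a + (1 - α) * b) - α * negMulLog a - (1 - α) * negMulLog b := by
  set q : ℝ := α * a + (1 - α) * b with hq
  have h1' : 0 ≤ 1 - α := by linarith
  have hq0 : 0 ≤ q := by positivity
  rcases eq_or_lt_of_le hq0 with h | h
  · have e1 : α * a = 0 := by
      have := mul_nonneg h0 ha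
      have := mul_nonneg h1' hb
      linarith
    have e2 : (1 - α) * b = 0 := by
      have := mul_nonneg h0 ha
      have := mul_nonneg h1' hb
      linarith
    rw [← h]
    have e3 : α * negMulLog a = 0 := by
      unfold negMulLog
      calc α * (-a * log a) = -(α * a) * log a := by ring
        _ = 0 := by rw [e1]; ring
    have e4 : (1 - α) * negMulLog b = 0 := by
      unfold negMulLog
      calc (1 - α) * (-b * log b) = -((1 - α) * b) * log b := by ring
        _ = 0 := by rw [e2]; ring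
    rw [e3, e4]
    simp [Real.sq_sqrt ha, e1]
  · have k1 := kl_term a q ha h
    have k2 := kl_term b q hb h
    have k3 : 0 ≤ -negMulLog b - b * log q - b + q := le_trans (sq_nonneg _) k2
    have k4 := mul_le_mul_of_nonneg_left k1 h0
    have k5 := mul_nonneg h1' k3
    have e1 : negMulLog q = -(α * a + (1 - α) * b) * log q := by
      unfold negMulLog; rw [hq]
    rw [e1]
    nlinarith

/-- the squared `L¹` distance is at most four times the squared Hellinger distance -/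
theorem l1_sq_le {I : Type*} [Fintype I] (a q : I → ℝ) (ha : ∀ i, 0 ≤ a i) (hq : ∀ i, 0 ≤ q i)
    (ha1 : ∑ i, a i = 1) (hq1 : ∑ i, q i = 1) :
    (∑ i, |a i - q i|) ^ 2 ≤ 4 * ∑ i, (√(a i) - √(q i)) ^ 2 := by
  have e1 : ∀ i, |a i - q i| = |√(a i) - √(q i)| * (√(a i) + √(q i)) := by
    intro i
    have h1 : a i - q i = (√(a i) - √(q i)) * (√(a i) + √(q i)) := by
      have h1 := Real.sq_sqrt (ha i)
      have h2 := Real.sq_sqrt (hq i)
      nlinarith
    rw [h1, abs_mul, abs_of_nonneg (by positivity : 0 ≤ √(a i) + √(q i))]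
  rw [Finset.sum_congr rfl fun i _ => e1 i]
  have e2 := Finset.sum_mul_sq_le_sq_mul_sq Finset.univ (fun i => |√(a i) - √(q i)|)
    (fun i => √(a i) + √(q i))
  refine le_trans e2 ?_
  have e3 : ∑ i, |√(a i) - √(q i)| ^ 2 = ∑ i, (√(a i) - √(q i)) ^ 2 :=
    Finset.sum_congr rfl fun i _ => sq_abs _
  have e4 : ∑ i, (√(a i) + √(q i)) ^ 2 ≤ 4 := by
    have : ∀ i, (√(a i) + √(q i)) ^ 2 ≤ 2 * a i + 2 * q i := by
      intro i
      have h1 := Real.sq_sqrt (ha i)
      have h2 := Real.sq_sqrt (hq i)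
      nlinarith [sq_nonneg (√(a i) - √(q i))]
    refine le_trans (Finset.sum_le_sum fun i _ => this i) ?_
    rw [Finset.sum_add_distrib, ← Finset.mul_sum, ← Finset.mul_sum, ha1, hq1]
    norm_num
  rw [e3]
  have e5 : 0 ≤ ∑ i, (√(a i) - √(q i)) ^ 2 := Finset.sum_nonneg fun i _ => sq_nonneg _
  nlinarith

/-! ### The functional -/

variable {Ω : Type*} [MeasurableSpace Ω] {I : Type*} [Fintype I]

/-- the mean probability vector -/
noncomputable def bar (p : Ω → I → ℝ) (ν : Measure Ω) (i : I) : ℝ := ∫ y, p y i ∂ν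

/-- the mutual information -/
noncomputable def J (p : Ω → I → ℝ) (ν : Measure Ω) : ℝ :=
  ∑ i, negMulLog (bar p ν i) - ∫ y, ∑ i, negMulLog (p y i) ∂ν

/-- a measurable family of probability vectors -/
structure IsPV (p : Ω → I → ℝ) : Prop where
  meas : ∀ i, Measurable fun y => p y i
  nonneg : ∀ y i, 0 ≤ p y i
  sum : ∀ y, ∑ i, p y i = 1

variable {p : Ω → I → ℝ}

theorem integrable_bdd (ν : Measure Ω) [IsFiniteMeasure ν] (f : Ω → ℝ) (hf : Measurable f)
    (B : ℝ) (h : ∀ y, |f y| ≤ B) : Integrable f ν := by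
  refine Integrable.of_bound hf.aestronglyMeasurable B (Filter.Eventually.of_forall fun y => ?_)
  rw [Real.norm_eq_abs]
  exact h y

theorem IsPV.le_one (hp : IsPV p) (y : Ω) (i : I) : p y i ≤ 1 := by
  rw [← hp.sum y]
  exact Finset.single_le_sum (fun i _ => hp.nonneg y i) (Finset.mem_univ i)

theorem IsPV.integrable (hp : IsPV p) (ν : Measure Ω) [IsFiniteMeasure ν] (i : I) :
    Integrable (fun y => p y i) ν :=
  integrable_bdd ν _ (hp.meas i) 1 fun y => by
    rw [abs_of_nonneg (hp.nonneg y i)]; exact hp.le_one y i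

theorem abs_nml_le (x : ℝ) (h0 : 0 ≤ x) (h1 : x ≤ 1) : |negMulLog x| ≤ 1 := by
  rw [abs_le]
  constructor
  · have := negMulLog_nonneg h0 h1
    linarith
  · have h := Real.negMulLog_le_one_sub_self h0
    linarith

theorem IsPV.integrable_nml (hp : IsPV p) (ν : Measure Ω) [IsFiniteMeasure ν] (i : I) :
    Integrable (fun y => negMulLog (p y i)) ν :=
  integrable_bdd ν _ (Real.continuous_negMulLog.measurable.comp (hp.meas i)) 1 fun y =>
    abs_nml_le _ (hp.nonneg y i) (hp.le_one y i)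

theorem IsPV.integrable_ent (hp : IsPV p) (ν : Measure Ω) [IsFiniteMeasure ν] :
    Integrable (fun y => ∑ i, negMulLog (p y i)) ν :=
  integrable_finsetSum _ fun i _ => hp.integrable_nml ν i

theorem IsPV.bar_nonneg (hp : IsPV p) (ν : Measure Ω) (i : I) : 0 ≤ bar p ν i :=
  integral_nonneg fun y => hp.nonneg y i

theorem IsPV.bar_sum (hp : IsPV p) (ν : Measure Ω) [IsProbabilityMeasure ν] :
    ∑ i, bar p ν i = 1 := by
  unfold bar
  rw [← integral_finsetSum _ fun i _ => hp.integrable ν i]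
  simp [hp.sum]

/-- mutual information is nonnegative -/
theorem IsPV.J_nonneg (hp : IsPV p) (ν : Measure Ω) [IsProbabilityMeasure ν] : 0 ≤ J p ν := by
  unfold J
  rw [integral_finsetSum _ fun i _ => hp.integrable_nml ν i, sub_nonneg]
  refine Finset.sum_le_sum fun i _ => ?_
  have := ConcaveOn.le_map_integral (μ := ν) (f := fun y => p y i) Real.concaveOn_negMulLog
    Real.continuous_negMulLog.continuousOn isClosed_Ici
    (Filter.Eventually.of_forall fun y => hp.nonneg y i) (hp.integrable ν i)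
    (hp.integrable_nml ν i)
  exact this

/-! ### Splitting -/

theorem cond_prob (ν : Measure Ω) [IsProbabilityMeasure ν] {A : Set Ω}
    (hA : 0 < ν.real A) : IsProbabilityMeasure (ν[|A]) :=
  ProbabilityTheory.cond_isProbabilityMeasure fun h => by
    rw [measureReal_def, h] at hA
    simp at hA

theorem integral_cond_mul (ν : Measure Ω) [IsProbabilityMeasure ν] {A : Set Ω}
    (f : Ω → ℝ) : ν.real A * ∫ y, f y ∂(ν[|A]) = ∫ y in A, f y ∂ν := by
  unfold ProbabilityTheory.cond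
  rw [integral_smul_measure]
  by_cases h : ν A = 0
  · rw [Measure.restrict_eq_zero.mpr h]
    simp
  · have h1 : ν A ≠ ⊤ := measure_ne_top _ _
    have h2 : (ν A).toReal ≠ 0 := ENNReal.toReal_ne_zero.mpr ⟨h, h1⟩
    rw [smul_eq_mul, ENNReal.toReal_inv, measureReal_def, ← mul_assoc, mul_inv_cancel₀ h2, one_mul]

theorem integral_split (ν : Measure Ω) [IsProbabilityMeasure ν] {A : Set Ω} (hA : MeasurableSet A)
    (f : Ω → ℝ) (hf : Integrable f ν) :
    ∫ y, f y ∂ν = ν.real A * ∫ y, f y ∂(ν[|A]) + (1 - ν.real A) * ∫ y, f y ∂(ν[|Aᶜ]) := by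
  have h : ν.real Aᶜ = 1 - ν.real A := probReal_compl_eq_one_sub hA
  rw [← h, integral_cond_mul, integral_cond_mul, integral_add_compl hA hf]

/-- the entropy gain of the splitting -/
noncomputable def Br (p : Ω → I → ℝ) (ν : Measure Ω) (A : Set Ω) : ℝ :=
  ∑ i, (negMulLog (bar p ν i) - ν.real A * negMulLog (bar p (ν[|A]) i)
    - (1 - ν.real A) * negMulLog (bar p (ν[|Aᶜ]) i))

/-- **chain rule** (D1) -/
theorem IsPV.J_split (hp : IsPV p) (ν : Measure Ω) [IsProbabilityMeasure ν] {A : Set Ω}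
    (hA : MeasurableSet A) :
    J p ν = ν.real A * J p (ν[|A]) + (1 - ν.real A) * J p (ν[|Aᶜ]) + Br p ν A := by
  have h := integral_split ν hA _ (hp.integrable_ent ν)
  unfold J Br
  rw [h, Finset.sum_sub_distrib, Finset.sum_sub_distrib, ← Finset.mul_sum, ← Finset.mul_sum]
  ring

/-- the gain controls the distance of the conditional mean -/
theorem IsPV.Br_ge (hp : IsPV p) (ν : Measure Ω) [IsProbabilityMeasure ν] {A : Set Ω}
    (hA : MeasurableSet A) (h0 : 0 < ν.real A) :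
    ν.real A * (∑ i, |bar p (ν[|A]) i - bar p ν i|) ^ 2 ≤ 4 * Br p ν A := by
  have hpr := cond_prob ν h0
  have h1 : ν.real A ≤ 1 := measureReal_le_one
  have key : ∀ i, ν.real A * (√(bar p (ν[|A]) i) - √(bar p ν i)) ^ 2 ≤
      negMulLog (bar p ν i) - ν.real A * negMulLog (bar p (ν[|A]) i)
        - (1 - ν.real A) * negMulLog (bar p (ν[|Aᶜ]) i) := by
    intro i
    have h := br_term (bar p (ν[|A]) i) (bar p (ν[|Aᶜ]) i) (ν.real A) (hp.bar_nonneg _ i)
      (hp.bar_nonneg _ i) h0.le h1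
    have hs : bar p ν i = ν.real A * bar p (ν[|A]) i + (1 - ν.real A) * bar p (ν[|Aᶜ]) i :=
      integral_split ν hA _ (hp.integrable ν i)
    rw [← hs] at h
    exact h
  have h2 := l1_sq_le (bar p (ν[|A])) (bar p ν) (hp.bar_nonneg _) (hp.bar_nonneg _)
    (hp.bar_sum _) (hp.bar_sum _)
  have h3 := mul_le_mul_of_nonneg_left h2 h0.le
  have h4 : ∑ i, ν.real A * (√(bar p (ν[|A]) i) - √(bar p ν i)) ^ 2 ≤ Br p ν A :=
    Finset.sum_le_sum fun i _ => key i
  rw [← Finset.mul_sum] at h4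
  calc ν.real A * (∑ i, |bar p (ν[|A]) i - bar p ν i|) ^ 2
      ≤ ν.real A * (4 * ∑ i, (√(bar p (ν[|A]) i) - √(bar p ν i)) ^ 2) := h3
    _ = 4 * (ν.real A * ∑ i, (√(bar p (ν[|A]) i) - √(bar p ν i)) ^ 2) := by ring
    _ ≤ 4 * Br p ν A := by linarith

theorem IsPV.Br_nonneg (hp : IsPV p) (ν : Measure Ω) [IsProbabilityMeasure ν] {A : Set Ω}
    (hA : MeasurableSet A) (h0 : 0 < ν.real A) : 0 ≤ Br p ν A := by
  have h := hp.Br_ge ν hA h0
  have : 0 ≤ ν.real A * (∑ i, |bar p (ν[|A]) i - bar p ν i|) ^ 2 := by positivity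
  linarith

/-- conditioning on a set of nearly full mass moves the mean little -/
theorem IsPV.l1_le_of_large (hp : IsPV p) (ν : Measure Ω) [IsProbabilityMeasure ν] {A : Set Ω}
    (hA : MeasurableSet A) (h0 : 0 < ν.real A) :
    ∑ i, |bar p (ν[|A]) i - bar p ν i| ≤ 2 * (1 - ν.real A) := by
  have h1 : ν.real A ≤ 1 := measureReal_le_one
  have hpr := cond_prob ν h0
  rcases eq_or_lt_of_le h1 with h | h
  · have : ∀ i, bar p (ν[|A]) i - bar p ν i = 0 := by
      intro i
      have hs : bar p ν i = ν.real A * bar p (ν[|A]) i + (1 - ν.real A) * bar p (ν[|Aᶜ]) i :=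
        integral_split ν hA _ (hp.integrable ν i)
      rw [hs, h]; ring
    simp [this, h]
  · have hc : 0 < ν.real Aᶜ := by
      rw [probReal_compl_eq_one_sub hA]; linarith
    have hpr' := cond_prob ν hc
    have : ∀ i, |bar p (ν[|A]) i - bar p ν i| ≤
        (1 - ν.real A) * (bar p (ν[|A]) i + bar p (ν[|Aᶜ]) i) := by
      intro i
      have hs : bar p ν i = ν.real A * bar p (ν[|A]) i + (1 - ν.real A) * bar p (ν[|Aᶜ]) i :=
        integral_split ν hA _ (hp.integrable ν i)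
      have e : bar p (ν[|A]) i - bar p ν i
          = (1 - ν.real A) * (bar p (ν[|A]) i - bar p (ν[|Aᶜ]) i) := by
        rw [hs]; ring
      rw [e, abs_mul, abs_of_nonneg (by linarith : 0 ≤ 1 - ν.real A)]
      refine mul_le_mul_of_nonneg_left ?_ (by linarith)
      have := hp.bar_nonneg (ν[|A]) i
      have := hp.bar_nonneg (ν[|Aᶜ]) i
      rw [abs_le]; constructor <;> linarith
    refine le_trans (Finset.sum_le_sum fun i _ => this i) ?_
    rw [← Finset.mul_sum, Finset.sum_add_distrib, hp.bar_sum, hp.bar_sum]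
    linarith

/-! ### The decrement -/

/-- the values of the information on the sets of mass at least `a ^ k` -/
def vals (p : Ω → I → ℝ) (ν : Measure Ω) (a : ℝ) (k : ℕ) : Set ℝ :=
  {x | ∃ B : Set Ω, MeasurableSet B ∧ a ^ k ≤ ν.real B ∧ x = J p (ν[|B])}

theorem cond_univ_eq (ν : Measure Ω) [IsProbabilityMeasure ν] : ν[|Set.univ] = ν := by
  simp [ProbabilityTheory.cond]

theorem mem_vals_univ (p : Ω → I → ℝ) (ν : Measure Ω) [IsProbabilityMeasure ν] {a : ℝ}
    (h0 : 0 ≤ a) (h1 : a ≤ 1) (k : ℕ) : J p ν ∈ vals p ν a k :=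
  ⟨Set.univ, MeasurableSet.univ, by rw [probReal_univ]; exact pow_le_one₀ h0 h1,
    by rw [cond_univ_eq]⟩

theorem IsPV.vals_nonneg (hp : IsPV p) (ν : Measure Ω) [IsProbabilityMeasure ν] {a : ℝ}
    (h0 : 0 < a) (k : ℕ) : ∀ x ∈ vals p ν a k, 0 ≤ x := by
  rintro x ⟨B, -, hB, rfl⟩
  have := cond_prob ν (lt_of_lt_of_le (pow_pos h0 k) hB)
  exact hp.J_nonneg _

theorem IsPV.bddBelow_vals (hp : IsPV p) (ν : Measure Ω) [IsProbabilityMeasure ν] {a : ℝ}
    (h0 : 0 < a) (k : ℕ) : BddBelow (vals p ν a k) :=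
  ⟨0, fun x hx => hp.vals_nonneg ν h0 k x hx⟩

/-- pigeonhole for a bounded nonincreasing sequence -/
theorem exists_small_step (F : ℕ → ℝ) (C τ : ℝ) (hτ : 0 < τ) (h0 : F 0 ≤ C) (hF : ∀ k, 0 ≤ F k) :
    ∃ k ≤ ⌈C / τ⌉₊, F k - F (k + 1) ≤ τ := by
  by_contra hcon
  push Not at hcon
  have key : ∀ k ≤ ⌈C / τ⌉₊ + 1, F k + k * τ ≤ C := by
    intro k
    induction k with
    | zero => intro _; simpa using h0
    | succ k ih =>
      intro hk
      have h1 := ih (by omega)
      have h2 := hcon k (by omega)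
      push_cast
      linarith
  have h1 := key (⌈C / τ⌉₊ + 1) le_rfl
  have h2 := hF (⌈C / τ⌉₊ + 1)
  have h3 : C / τ ≤ ⌈C / τ⌉₊ := Nat.le_ceil _
  rw [div_le_iff₀ hτ] at h3
  push_cast at h1
  linarith

theorem real_cond (ν : Measure Ω) [IsProbabilityMeasure ν] {B : Set Ω} (hB : MeasurableSet B)
    (A : Set Ω) : ν.real B * (ν[|B]).real A = ν.real (B ∩ A) := by
  have e : (ν[|B]).real A = (ν.real B)⁻¹ * ν.real (B ∩ A) := by
    rw [measureReal_def, ProbabilityTheory.cond_apply hB, ENNReal.toReal_mul, ENNReal.toReal_inv]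
    rfl
  rw [e]
  by_cases h : ν.real B = 0
  · have : ν.real (B ∩ A) = 0 := by
      refine le_antisymm ?_ measureReal_nonneg
      rw [← h]
      exact measureReal_mono Set.inter_subset_left
    rw [h, this]; ring
  · rw [← mul_assoc, mul_inv_cancel₀ h, one_mul]

/-- **Decrement** (D2) -/
theorem decrement (C : ℝ) {γ ξ : ℝ} (hγ : 0 < γ) (hξ : 0 < ξ) :
    ∃ θ : ℝ, 0 < θ ∧ ∀ {Ω : Type} [MeasurableSpace Ω] {I : Type} [Fintype I]
      (ν : Measure Ω) [IsProbabilityMeasure ν] (p : Ω → I → ℝ), IsPV p → J p ν ≤ C →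
      ∃ B : Set Ω, MeasurableSet B ∧ θ ≤ ν.real B ∧ J p (ν[|B]) ≤ C + 1 ∧
        ∀ A : Set Ω, MeasurableSet A → γ ≤ (ν[|B]).real A →
          ∑ i, |bar p ((ν[|B])[|A]) i - bar p (ν[|B]) i| ≤ ξ := by
  set a : ℝ := min (min γ (ξ / 2)) (1 / 2) with ha
  have ha0 : 0 < a := by
    rw [ha]; exact lt_min (lt_min hγ (by positivity)) (by norm_num)
  have haγ : a ≤ γ := le_trans (min_le_left _ _) (min_le_left _ _)
  have haξ : a ≤ ξ / 2 := le_trans (min_le_left _ _) (min_le_right _ _)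
  have ha2 : a ≤ 1 / 2 := min_le_right _ _
  set τ : ℝ := min (γ * ξ ^ 2 / 8) 1 with hτd
  have hτ0 : 0 < τ := by rw [hτd]; exact lt_min (by positivity) one_pos
  have hτ1 : τ ≤ 1 := min_le_right _ _
  have hτ2 : τ ≤ γ * ξ ^ 2 / 8 := min_le_left _ _
  refine ⟨a ^ ⌈C / τ⌉₊, pow_pos ha0 _, ?_⟩
  intro Ω _ I _ ν _ p hp hJ
  set F : ℕ → ℝ := fun k => sInf (vals p ν a k) with hF
  have hne : ∀ k, (vals p ν a k).Nonempty := fun k =>
    ⟨_, mem_vals_univ p ν ha0.le (by linarith) k⟩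
  have hF0 : ∀ k, 0 ≤ F k := fun k => le_csInf (hne k) (hp.vals_nonneg ν ha0 k)
  have hFle : ∀ k, F k ≤ J p ν := fun k =>
    csInf_le (hp.bddBelow_vals ν ha0 k) (mem_vals_univ p ν ha0.le (by linarith) k)
  obtain ⟨k, hk, hstep⟩ := exists_small_step F C τ hτ0 (le_trans (hFle 0) hJ) hF0
  obtain ⟨x, ⟨B, hBm, hBk, rfl⟩, hx⟩ : ∃ x ∈ vals p ν a k, x < F k + τ :=
    exists_lt_of_csInf_lt (hne k) (by show sInf (vals p ν a k) < F k + τ; rw [hF]; linarith)
  have hB0 : 0 < ν.real B := lt_of_lt_of_le (pow_pos ha0 k) hBk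
  have hpr := cond_prob ν hB0
  refine ⟨B, hBm, ?_, ?_, ?_⟩
  · exact le_trans (pow_le_pow_of_le_one ha0.le (by linarith) hk) hBk
  · have := hFle k
    linarith
  intro A hA hγA
  have hA0 : 0 < (ν[|B]).real A := lt_of_lt_of_le hγ hγA
  by_cases hlarge : 1 - a < (ν[|B]).real A
  · refine le_trans (hp.l1_le_of_large (ν[|B]) hA hA0) ?_
    linarith
  push Not at hlarge
  -- both parts have mass at least `a`
  have hpart : ∀ A' : Set Ω, MeasurableSet A' → a ≤ (ν[|B]).real A' →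
      F k - τ ≤ J p ((ν[|B])[|A']) := by
    intro A' hA' hmass
    have h1 : (ν[|B])[|A'] = ν[|B ∩ A'] := ProbabilityTheory.cond_cond_eq_cond_inter hBm hA' ν
    have h2 : a ^ (k + 1) ≤ ν.real (B ∩ A') := by
      rw [← real_cond ν hBm A', pow_succ]
      exact mul_le_mul hBk hmass ha0.le hB0.le
    have h3 : F (k + 1) ≤ J p (ν[|B ∩ A']) :=
      csInf_le (hp.bddBelow_vals ν ha0 (k + 1)) ⟨_, hBm.inter hA', h2, rfl⟩
    rw [h1]
    linarith
  have hAc : (ν[|B]).real Aᶜ = 1 - (ν[|B]).real A := probReal_compl_eq_one_sub hA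
  have p1 := hpart A hA (by linarith)
  have p2 := hpart Aᶜ hA.compl (by linarith)
  have hsplit := hp.J_split (ν[|B]) hA
  have hα0 : 0 ≤ (ν[|B]).real A := hA0.le
  have hα1 : 0 ≤ 1 - (ν[|B]).real A := by linarith
  have m1 := mul_le_mul_of_nonneg_left p1 hα0
  have m2 := mul_le_mul_of_nonneg_left p2 hα1
  have hBr : Br p (ν[|B]) A ≤ 2 * τ := by nlinarith
  have hge := hp.Br_ge (ν[|B]) hA hA0
  set d : ℝ := ∑ i, |bar p ((ν[|B])[|A]) i - bar p (ν[|B]) i| with hd
  have hd0 : 0 ≤ d := Finset.sum_nonneg fun i _ => abs_nonneg _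
  have h5 : γ * d ^ 2 ≤ γ * ξ ^ 2 := by
    calc γ * d ^ 2 ≤ (ν[|B]).real A * d ^ 2 := mul_le_mul_of_nonneg_right hγA (sq_nonneg _)
      _ ≤ 4 * Br p (ν[|B]) A := hge
      _ ≤ 4 * (2 * τ) := by linarith
      _ ≤ 4 * (2 * (γ * ξ ^ 2 / 8)) := by linarith
      _ = γ * ξ ^ 2 := by ring
  have h6 : d ^ 2 ≤ ξ ^ 2 := le_of_mul_le_mul_left h5 hγ
  exact (pow_le_pow_iff_left₀ hd0 hξ.le two_ne_zero).mp h6

end Pool.Agent.Helper97.SAG
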