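import Mathlib
import Pool.Agent.Helper35.AG.Basic

/-!
# Atomless measures on the circle have uniformly small dyadic cells
-/

set_option autoImplicit false
open MeasureTheory Filter Topology Metric

namespace Pool.Agent.Helper97.SAG

open Helper35.AG (Tor idx)

theorem cell_sub_ball (K : ℕ) (x : Tor) :
    {y : Tor | idx K y = idx K x} ⊆ closedBall x (1 / 2 ^ K) := by
  intro y hy
  have hy' : idx K y = idx K x := hy
  rw [mem_closedBall, dist_eq_norm]
  exact Helper35.AG.norm_sub_le_of_idx hy'

theorem exists_atom (ν : Measure Tor) [IsProbabilityMeasure ν] (η : ℝ) (hη : 0 < η)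
    (h : ∀ n : ℕ, ∃ x : Tor, η ≤ ν.real (closedBall x (1 / 2 ^ n))) : ∃ x : Tor, ν {x} ≠ 0 := by
  choose x hx using h
  obtain ⟨a, φ, hφ, ha⟩ := CompactSpace.tendsto_subseq x
  refine ⟨a, ?_⟩
  have hball : ∀ r : ℝ, 0 < r → η ≤ ν.real (closedBall a r) := by
    intro r hr
    have h1 : ∀ᶠ n in atTop, dist (x (φ n)) a < r / 2 :=
      (Metric.tendsto_nhds.mp ha) (r / 2) (by positivity)
    have h2 : ∀ᶠ n : ℕ in atTop, (1 / 2 : ℝ) ^ n < r / 2 :=
      (tendsto_pow_atTop_nhds_zero_of_lt_one (by norm_num) (by norm_num)).eventually_lt_const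
        (by positivity)
    have h2' : ∀ᶠ n : ℕ in atTop, (1 / 2 : ℝ) ^ (φ n) < r / 2 := hφ.tendsto_atTop.eventually h2
    obtain ⟨n, h3, h4⟩ := (h1.and h2').exists
    refine le_trans (hx (φ n)) (measureReal_mono ?_)
    intro y hy
    rw [mem_closedBall] at hy ⊢
    have h5 : (1 : ℝ) / 2 ^ (φ n) = (1 / 2) ^ (φ n) := by rw [one_div, one_div, inv_pow]
    have h6 := dist_triangle y (x (φ n)) a
    rw [h5] at hy
    linarith
  have hinter : ⋂ n : ℕ, closedBall a (1 / ((n : ℝ) + 1)) = {a} := by
    ext y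
    simp only [Set.mem_iInter, mem_closedBall, Set.mem_singleton_iff]
    constructor
    · intro hy
      have h1 : dist y a ≤ 0 :=
        ge_of_tendsto' tendsto_one_div_add_atTop_nhds_zero_nat hy
      exact dist_le_zero.mp h1
    · rintro rfl n
      rw [dist_self]
      positivity
  have hanti : Antitone fun n : ℕ => closedBall a (1 / ((n : ℝ) + 1)) := by
    intro m n hmn
    refine closedBall_subset_closedBall ?_
    have : (m : ℝ) ≤ n := by exact_mod_cast hmn
    gcongr
  have hlim : Tendsto (fun n : ℕ => ν (closedBall a (1 / ((n : ℝ) + 1)))) atTop (𝓝 (ν {a})) := by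
    rw [← hinter]
    exact tendsto_measure_iInter_atTop
      (fun n => (isClosed_closedBall.measurableSet).nullMeasurableSet) hanti
      ⟨0, measure_ne_top _ _⟩
  have hge : ENNReal.ofReal η ≤ ν {a} := by
    refine ge_of_tendsto' hlim fun n => ?_
    have := hball (1 / ((n : ℝ) + 1)) (by positivity)
    rw [measureReal_def] at this
    exact (ENNReal.ofReal_le_iff_le_toReal (measure_ne_top _ _)).mpr this
  intro h0
  rw [h0] at hge
  have : η ≤ 0 := by simpa using hge
  linarith

/-- **An atomless probability has uniformly small cells.** -/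
theorem small_cells (ν : Measure Tor) [IsProbabilityMeasure ν] (hν : ∀ x, ν {x} = 0) (η : ℝ)
    (hη : 0 < η) : ∃ K0 : ℕ, ∀ K ≥ K0, ∀ i : ℕ, ν.real {x | idx K x = i} ≤ η := by
  by_contra hcon
  push Not at hcon
  have key : ∀ n : ℕ, ∃ x : Tor, η ≤ ν.real (closedBall x (1 / 2 ^ n)) := by
    intro n
    obtain ⟨K, hK, i, hi⟩ := hcon n
    have hne : ({x : Tor | idx K x = i}).Nonempty := by
      rw [Set.nonempty_iff_ne_empty]
      intro h
      rw [h] at hi
      simp at hi
      linarith
    obtain ⟨x, hx⟩ := hne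
    have hx' : idx K x = i := hx
    refine ⟨x, le_trans hi.le (measureReal_mono ?_)⟩
    intro y hy
    have hy' : idx K y = i := hy
    have h1 : y ∈ closedBall x (1 / 2 ^ K) := cell_sub_ball K x (by
      show idx K y = idx K x
      rw [hy', hx'])
    refine closedBall_subset_closedBall ?_ h1
    have : (2 : ℝ) ^ n ≤ 2 ^ K := pow_le_pow_right₀ (by norm_num) hK
    gcongr
  obtain ⟨x, hx⟩ := exists_atom ν η hη key
  exact hx (hν x)

end Pool.Agent.Helper97.SAG
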