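import Mathlib
import Pool.Agent.Helper39.SAG.Main
import Pool.Agent.Helper97.SAG.Atomless

/-!
# Growth of the entropy for one invariant measure
-/

set_option autoImplicit false
open MeasureTheory Filter Topology

namespace Pool.Agent.Helper97.SAG

open Helper35.AG (Tor idx ent conv Inv)

theorem exists_freq (μ : Measure Tor) [IsProbabilityMeasure μ] (hne : μ ≠ volume) :
    ∃ m : ℕ, 1 ≤ m ∧ ∫ x, fourier (m : ℤ) x ∂μ ≠ 0 := by
  by_contra hcon
  push Not at hcon
  apply hne
  apply Helper17.TranslM.eq_of_fourier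
  intro n
  rcases lt_trichotomy n 0 with h | h | h
  · have h1 : (1 : ℤ) ≤ -n := by omega
    obtain ⟨m, hm⟩ : ∃ m : ℕ, (m : ℤ) = -n := ⟨(-n).toNat, by omega⟩
    have h2 := hcon m (by omega)
    have h3 : ∫ x, (fourier n x : ℂ) ∂μ = 0 := by
      have e : ∀ x : Tor, (fourier n x : ℂ) = (starRingEnd ℂ) (fourier (m : ℤ) x) := by
        intro x
        have : n = -(m : ℤ) := by omega
        rw [this, fourier_neg]
      rw [integral_congr_ae (Eventually.of_forall e), integral_conj, h2, map_zero]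
    rw [h3, Helper17.TranslM.integral_fourier_vol h.ne]
  · rw [h]
    simp
  · obtain ⟨m, hm⟩ : ∃ m : ℕ, (m : ℤ) = n := ⟨n.toNat, by omega⟩
    have h2 := hcon m (by omega)
    rw [← hm, h2, Helper17.TranslM.integral_fourier_vol (by omega)]

/-- **Gap.** -/
theorem gap {μ : Measure Tor} [IsProbabilityMeasure μ] (hμ : Inv μ) (hne : μ ≠ volume) (C : ℝ) :
    ∃ η : ℝ, 0 < η ∧ ∀ (ν : Measure Tor) [IsProbabilityMeasure ν] (K : ℕ),
      (∀ i < 2 ^ K, ν.real {y | idx K y = i} ≤ η) → ent μ K + C < ent (conv μ ν) K := by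
  obtain ⟨m, hm1, hm⟩ := exists_freq μ hne
  have hm0 : (0 : ℝ) < m := by exact_mod_cast hm1
  set a : ℝ := ‖∫ x, fourier (m : ℤ) x ∂μ‖ with ha
  have ha0 : 0 < a := norm_pos_iff.mpr hm
  set ε : ℝ := min a (1 / m) with hε
  have hε0 : 0 < ε := lt_min ha0 (by positivity)
  obtain ⟨η, hη, h⟩ := Helper39.SAG.sag C hε0
  refine ⟨η, hη, ?_⟩
  intro ν _ K hcell
  by_contra hcon
  push Not at hcon
  have hle : (m : ℝ) ≤ 1 / ε := by
    rw [le_div_iff₀ hε0]
    have : ε ≤ 1 / m := min_le_right _ _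
    calc (m : ℝ) * ε ≤ m * (1 / m) := by gcongr
      _ = 1 := by field_simp
  have h1 := h μ ν K hμ hcell hcon m hm1 hle
  have h2 : ε ≤ a := min_le_left _ _
  linarith

/-- **Growth.**  Adding an independent atomless variable raises the entropy without bound. -/
theorem tendsto_growth {μ ν : Measure Tor} [IsProbabilityMeasure μ] [IsProbabilityMeasure ν]
    (hμ : Inv μ) (hne : μ ≠ volume) (hν : ∀ x, ν {x} = 0) :
    Tendsto (fun K => ent (conv μ ν) K - ent μ K) atTop atTop := by
  rw [tendsto_atTop]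
  intro C
  obtain ⟨η, hη, h⟩ := gap hμ hne C
  obtain ⟨K0, hK0⟩ := small_cells ν hν η hη
  filter_upwards [eventually_ge_atTop K0] with K hK
  have := h ν K fun i _ => hK0 K hK i
  linarith

/-- If the growth is bounded for infinitely many scales and some atomless law, the measure is
Lebesgue measure. -/
theorem eq_volume_of_frequently {μ ν : Measure Tor} [IsProbabilityMeasure μ]
    [IsProbabilityMeasure ν] (hμ : Inv μ) (hν : ∀ x, ν {x} = 0) (C : ℝ)
    (h : ∃ᶠ K in atTop, ent (conv μ ν) K - ent μ K ≤ C) : μ = volume := by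
  by_contra hne
  have ht := (tendsto_growth hμ hne hν).eventually_gt_atTop C
  obtain ⟨K, h1, h2⟩ := (h.and_eventually ht).exists
  linarith

/-- If the growth is bounded along arbitrarily spread laws, the measure is Lebesgue measure. -/
theorem eq_volume_of_spread {μ : Measure Tor} [IsProbabilityMeasure μ] (hμ : Inv μ) (C : ℝ)
    (H : ∀ η : ℝ, 0 < η → ∃ ν : Measure Tor, ∃ K : ℕ, IsProbabilityMeasure ν ∧
      (∀ i < 2 ^ K, ν.real {y | idx K y = i} ≤ η) ∧ ent (conv μ ν) K ≤ ent μ K + C) :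
    μ = volume := by
  by_contra hne
  obtain ⟨η, hη, h⟩ := gap hμ hne C
  obtain ⟨ν, K, hp, hc, he⟩ := H η hη
  have := h ν K hc
  linarith

end Pool.Agent.Helper97.SAG
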